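import Pool.Agent.Lib.LR.Fin2

/-!
# 2-to-1 games with perfect completeness: a barrier for local reductions from label cover

For every `ε` there are label cover instances `I n` with value at most `ε`, `C n` vertices on each
side and alphabets whose size depends on `ε` only, such that every 2-to-1 game which is derived from
`I n` by a local reduction (the label of every vertex is decoded from at most `c` labels, the
constraint of every edge is implied by at most `c` edges) and is not large has a large value:
at least `1 / 8` if `c μ^(7/8) ≤ κ C n`, and at least `(β/2)^(150/β)` if `c μ^β ≤ κ C n`, where `μ` is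
the number of vertices on the smaller side of the game.

The reason: the instances have perfect pseudo-expectations of linear degree, which are carried over
to the game, and (second part) perfect solutions of level `10^8 μ^(7/8)` of the semidefinite
hierarchy exist only for games of value at least `1 / 8`.
-/

set_option autoImplicit false

namespace Pool.Agent.Results.MP_ec946a_lc.LocalReductions

open Pool.Agent.MP_ec946a

theorem result :
    (∀ ε : ℝ, 0 < ε → ε ≤ 1 →
      ∃ (A B : Type) (_ : Fintype A) (_ : Fintype B) (D C : ℕ) (κ : ℝ) (I : ℕ → LR.LabelCover A B),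
        (Nat.card A : ℝ) ≤ (100 / ε ^ 2) ^ 2 ∧ (Nat.card B : ℝ) ≤ 100 / ε ^ 2 ∧
        (D : ℝ) ≤ 10 / ε ∧ 0 < C ∧ 0 < κ ∧ ∀ n, 0 < n →
          Nat.card (I n).X = C * n ∧ Nat.card (I n).Y = C * n ∧ Nat.card (I n).E = D * (C * n) ∧
          (I n).value ≤ ε ∧
          ∀ (q : ℕ) (G : Game q) (c : ℕ), (I n).Derives c G →
            (c * (min (Nat.card G.U) (Nat.card G.V) : ℝ) ^ (7 / 8 : ℝ) ≤ κ * (C * n) →
              1 / 8 ≤ G.value) ∧
            ∀ β : ℝ, 0 < β → β ≤ 1 →
              c * (min (Nat.card G.U) (Nat.card G.V) : ℝ) ^ β ≤ κ * (C * n) →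
              (β / 2) ^ (150 / β) ≤ G.value) ∧
    (∀ (q : ℕ) (G : Game q) (t : ℕ),
      (G.value = 1 → Nonempty (G.LevelSolution t)) ∧
      (Nonempty (G.LevelSolution t) →
        (10 ^ 8 * (min (Nat.card G.U) (Nat.card G.V) : ℝ) ^ (7 / 8 : ℝ) ≤ t →
          1 / 8 ≤ G.value) ∧
        ∀ β : ℝ, 0 < β → β ≤ 1 →
          1152 * (min (Nat.card G.U) (Nat.card G.V) : ℝ) ^ β ≤ t →
          (β / 2) ^ (150 / β) ≤ G.value)) :=
  ⟨LR.final2, fun q G t => ⟨fun h => SDA.exists_levelSolution h t, fun hs =>
    ⟨LR.levels q G t hs, fun _ hβ hβ1 ht => hs.elim fun s => SDA.value_ge_of_min s hβ hβ1 ht⟩⟩⟩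

end Pool.Agent.Results.MP_ec946a_lc.LocalReductions
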